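import Pool.Agent.H67.PI.Emb

/-!
# Every finitely generated associative PI algebra embeds into a 2-generated one (Q1)

Let `B` be generated by `a 0, ..., a (k-1)` and let `C` be its unitization. In `M_N(C)`,
`N = 4 k + 20`, take the cyclic permutation matrix `x` and the diagonal matrix `y` with entries
`1, 1, 1` at the places `0, 1, 3` and `a j` at the place `4 j + 8`. The algebra generated by `x` and
`y` contains `(a j) e_00`, hence a copy of `B`, and it is PI since `M_N(C)` is. (The ingredients are
in the starting files `Pool/Agent/H67/PI`.)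
-/

set_option autoImplicit false

namespace Pool.Agent.Results.MP_e0d88d_al.AssociativePI

universe u v

open Pool.Agent.H67.PI

/-- An associative algebra `A` over a field `F` (not assumed unital) is PI: some nonzero
noncommutative polynomial `f` with zero constant term vanishes on `A`. (It is evaluated in the
unitization of `A`.) -/
def IsPI (F : Type u) [Field F] (A : Type v) [NonUnitalRing A] [Module F A]
    [IsScalarTower F A A] [SMulCommClass F A A] : Prop :=
  ∃ (n : ℕ) (f : FreeAlgebra F (Fin n)), f ≠ 0 ∧ FreeAlgebra.algebraMapInv f = 0 ∧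
    ∀ a : Fin n → A,
      FreeAlgebra.lift F (fun i => (Unitization.inr (a i) : Unitization F A)) f = 0

/-- Let `B` be an associative PI algebra over the field `F` (not assumed unital) generated by `k`
elements. There are an associative PI algebra `M` generated by two elements and an injective
homomorphism `B → M`. -/
theorem result (F : Type u) [Field F] (B : Type v) [NonUnitalRing B]
    [Module F B] [IsScalarTower F B B] [SMulCommClass F B B] (hB : IsPI F B) (k : ℕ)
    (a : Fin k → B) (ha : NonUnitalAlgebra.adjoin F (Set.range a) = ⊤) :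
    ∃ (M : Type (max u v)) (_ : NonUnitalRing M) (_ : Module F M) (_ : IsScalarTower F M M)
      (_ : SMulCommClass F M M) (x y : M) (φ : B →ₙₐ[F] M),
      IsPI F M ∧ NonUnitalAlgebra.adjoin F ({x, y} : Set M) = ⊤ ∧ Function.Injective φ := by
  classical
  obtain ⟨n, f, hf, -, hfB⟩ := hB
  set N : ℕ := 4 * k + 20 with hN
  have : NeZero N := ⟨by omega⟩
  obtain ⟨r, α, hr, hα, hMα⟩ := unitization_matrix f hf hfB (ZMod N)
  let M₀ := Matrix (ZMod N) (ZMod N) (Unitization F B)
  let a' : ℕ → Unitization F B := fun j => if hj : j < k then Unitization.inr (a ⟨j, hj⟩) else 0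
  let x₀ : M₀ := P (Unitization F B) N 1
  let y₀ : M₀ := Matrix.diagonal (h N a')
  let φ₀ : B →ₙₐ[F] M₀ :=
    { toFun := fun b => Matrix.single 0 0 (Unitization.inr b)
      map_smul' := by
        intro t b
        rw [Unitization.inr_smul]
        exact (Matrix.smul_single t 0 0 _).symm
      map_zero' := by simp
      map_add' := by
        intro b b'
        rw [Unitization.inr_add, Matrix.single_add]
      map_mul' := by
        intro b b'
        rw [Unitization.inr_mul, Matrix.single_mul_single_same] }
  have hφinj : Function.Injective φ₀ := by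
    intro b b' hbb
    have h1 := congrArg (fun X : M₀ => X 0 0) hbb
    have h2 : (Unitization.inr b : Unitization F B) = Unitization.inr b' := by
      simpa [φ₀] using h1
    exact Unitization.inr_injective h2
  set T : NonUnitalSubalgebra F M₀ := NonUnitalAlgebra.adjoin F ({x₀, y₀} : Set M₀) with hT
  have hx : x₀ ∈ T := NonUnitalAlgebra.subset_adjoin F (by simp)
  have hy : y₀ ∈ T := NonUnitalAlgebra.subset_adjoin F (by simp)
  have hφT : ∀ b, φ₀ b ∈ T := by
    have h1 : NonUnitalAlgebra.adjoin F (Set.range a) ≤ T.comap φ₀ := by
      rw [NonUnitalAlgebra.adjoin_le_iff]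
      rintro _ ⟨j, rfl⟩
      have h3 := assoc_gen F (N := N) (by omega) (by omega) a' T hx hy j.val (by omega)
      have h4 : a' j.val = Unitization.inr (a j) := by
        simp [a']
      rw [h4] at h3
      exact h3
    intro b
    have h2 : b ∈ NonUnitalAlgebra.adjoin F (Set.range a) := by
      rw [ha]
      trivial
    exact h1 h2
  obtain ⟨c, hc⟩ := adjoin_two (F := F) x₀ y₀
  have hc' : Set.range c = {c 0, c 1} := by
    ext z
    simp only [Set.mem_range, Fin.exists_fin_two, Set.mem_insert_iff, Set.mem_singleton_iff]
    constructor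
    · rintro (h | h)
      · exact Or.inl h.symm
      · exact Or.inr h.symm
    · rintro (h | h)
      · exact Or.inl h.symm
      · exact Or.inr h.symm
  rw [hc'] at hc
  refine ⟨T, inferInstance, inferInstance, inferInstance, inferInstance, c 0, c 1,
    { toFun := fun b => ⟨φ₀ b, hφT b⟩
      map_smul' := fun t b => Subtype.ext (map_smul φ₀ t b)
      map_zero' := Subtype.ext (map_zero φ₀)
      map_add' := fun b b' => Subtype.ext (map_add φ₀ b b')
      map_mul' := fun b b' => Subtype.ext (map_mul φ₀ b b') },
    ⟨r, mlp α, mlp_ne_zero α hα, mlp_const hr α, fun b => mlp_sub T hr α hMα b⟩, hc, ?_⟩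
  intro b b' hbb
  exact hφinj (congrArg Subtype.val hbb)

end Pool.Agent.Results.MP_e0d88d_al.AssociativePI
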