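import Pool.Agent.U540.SJ.PI
import Pool.Agent.Results.MP_e0d88d_al.JordanTwoGenerated

/-!
# Every finitely generated special Jordan PI algebra embeds into a 2-generated one

Full (positive) answer to Q2: over every field of characteristic not two, every finitely generated
special Jordan PI algebra embeds into a 2-generated special Jordan PI algebra.

Let `J ⊆ B⁺` be the Jordan algebra generated by `a 0, ..., a (k-1)`. The starting file
`JordanTwoGenerated` treats the case that the associative envelope `B` is PI. So we prove that the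
associative algebra `A` generated by the `a i` is PI as soon as `J` is (`Pool/Agent/U540/SJ`).

* `A = ∑ J a_{i₁} ⋯ a_{i_r}`, `r ≤ k + 1` (`Span`): elements of `J` anticommute up to shorter
  products, and `J J ⊆ J + ∑ J a_i` by `[uv + vu, w] + [vw + wv, u] + [wu + uw, v] = 0`.
* `J` satisfies a multilinear identity of degree `d`. A word with `d` consecutive blocks, each
  starting with its largest letter, with decreasing first letters, is a combination of smaller
  rearrangements modulo this identity (`Red`): the left-normed Jordan product of a block lies in `J`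
  and its leading word is the block.
* The number of the remaining words in `n` different letters is `O(ε ^ n n!)` for every `ε > 0`
  (`Count`), so that dimensions give a multilinear identity of `A` (`PI`).
-/

set_option autoImplicit false

namespace Pool.Agent.Results.MP_e0d88d_al.SpecialJordanPI

universe u v

/-- The Jordan product `a ∘ b = (ab + ba)/2` of an associative algebra over `F`. -/
noncomputable def circ (F : Type u) [Field F] {A : Type v} [NonUnitalRing A] [Module F A]
    (a b : A) : A := (2 : F)⁻¹ • (a * b + b * a)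

/-- The Jordan subalgebra of `A⁺` generated by a subset `X`: the least subspace which contains
`X` and is closed under the Jordan product. -/
def jordanAdjoin (F : Type u) [Field F] {A : Type v} [NonUnitalRing A] [Module F A]
    (X : Set A) : Submodule F A :=
  sInf {S : Submodule F A | X ⊆ S ∧ ∀ a ∈ S, ∀ b ∈ S, circ F a b ∈ S}

/-- The free special Jordan algebra on `n` generators: the Jordan algebra generated by the
variables in the free associative algebra. -/
def SJ (F : Type u) [Field F] (n : ℕ) : Submodule F (FreeAlgebra F (Fin n)) :=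
  jordanAdjoin F (Set.range (FreeAlgebra.ι F))

/-- A Jordan subalgebra `J` of `A⁺`, `A` associative, is PI: some nonzero element of a free
special Jordan algebra vanishes on `J` (it is evaluated in the unitization of `A`). -/
def IsJordanPI (F : Type u) [Field F] {A : Type v} [NonUnitalRing A] [Module F A]
    [IsScalarTower F A A] [SMulCommClass F A A] (J : Submodule F A) : Prop :=
  ∃ (n : ℕ) (f : FreeAlgebra F (Fin n)), f ∈ SJ F n ∧ f ≠ 0 ∧
    ∀ a : Fin n → A, (∀ i, a i ∈ J) →
      FreeAlgebra.lift F (fun i => (Unitization.inr (a i) : Unitization F A)) f = 0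

section

variable {F : Type u} [Field F] {A : Type v} [NonUnitalRing A] [Module F A]

theorem subset_jordanAdjoin (X : Set A) : X ⊆ jordanAdjoin F X :=
  JordanTwoGenerated.subset_jordanAdjoin X

theorem jordanAdjoin_le {X : Set A} {S : Submodule F A} (h1 : X ⊆ S)
    (h2 : ∀ a ∈ S, ∀ b ∈ S, circ F a b ∈ S) : jordanAdjoin F X ≤ S :=
  sInf_le ⟨h1, h2⟩

theorem circ_mem (X : Set A) : ∀ a ∈ jordanAdjoin F X, ∀ b ∈ jordanAdjoin F X,
    circ F a b ∈ jordanAdjoin F X :=
  JordanTwoGenerated.circ_mem X

end

open Pool.Agent.H67.PI Pool.Agent.U540.SJ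

/-- The associative algebra generated by the generators of a special Jordan PI algebra is PI. -/
theorem envelope_isPI (F : Type u) [Field F] (h2 : (2 : F) ≠ 0) (B : Type v) [NonUnitalRing B]
    [Module F B] [IsScalarTower F B B] [SMulCommClass F B B] (k : ℕ) (a : Fin k → B)
    (hJ : IsJordanPI F (jordanAdjoin F (Set.range a))) :
    JordanTwoGenerated.IsPI F (NonUnitalAlgebra.adjoin F (Set.range a)) := by
  obtain ⟨n, f, -, hf, hfJ⟩ := hJ
  set J := jordanAdjoin F (Set.range a) with hJdef
  let C := Unitization F B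
  set JC : Submodule F C := J.map (Unitization.inrHom F F B) with hJC
  have hmem : ∀ x : C, x ∈ JC ↔ ∃ b ∈ J, (Unitization.inr b : C) = x := fun x => Iff.rfl
  obtain ⟨d, c, hc1, hc⟩ := linearise JC f hf (by
    intro b hb
    choose b' hb' hbb using fun i => (hmem (b i)).1 (hb i)
    have : b = fun i => (Unitization.inr (b' i) : Unitization F B) := by
      funext i; rw [hbb]
    rw [this]
    exact hfJ b' hb')
  have hcl : ∀ x ∈ JC, ∀ y ∈ JC, x * y + y * x ∈ JC := by
    intro x hx y hy
    obtain ⟨b, hb, rfl⟩ := (hmem x).1 hx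
    obtain ⟨b', hb', rfl⟩ := (hmem y).1 hy
    refine (hmem _).2 ⟨b * b' + b' * b, JordanTwoGenerated.add_mem' h2 _ b hb b' hb', ?_⟩
    rw [Unitization.inr_add, Unitization.inr_mul, Unitization.inr_mul]
  set a' : Fin k → C := fun i => Unitization.inr (a i) with ha'
  have haJ : ∀ i, a' i ∈ JC := fun i =>
    (hmem _).2 ⟨a i, subset_jordanAdjoin _ ⟨i, rfl⟩, rfl⟩
  have hmin : ∀ S : Submodule F C, (∀ i, a' i ∈ S) →
      (∀ x ∈ S, ∀ y ∈ S, x * y + y * x ∈ S) → JC ≤ S := by
    intro S hS1 hS2
    rw [hJC, Submodule.map_le_iff_le_comap]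
    apply jordanAdjoin_le
    · rintro _ ⟨i, rfl⟩
      exact hS1 i
    · intro x hx y hy
      have h3 := S.smul_mem (2 : F)⁻¹ (hS2 _ hx _ hy)
      have h4 : (Unitization.inrHom F F B) (circ F x y) = (2 : F)⁻¹ •
          ((Unitization.inrHom F F B) x * (Unitization.inrHom F F B) y +
            (Unitization.inrHom F F B) y * (Unitization.inrHom F F B) x) := by
        simp only [circ, Unitization.inrHom_apply, Unitization.inr_smul, Unitization.inr_add,
          Unitization.inr_mul]
      rw [Submodule.mem_comap, h4]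
      exact h3
  obtain ⟨m, s, hm, hs, hid⟩ := envelope_identity JC hcl a' haJ c hc1 hc
  refine ⟨m, mlp s, mlp_ne_zero s hs, mlp_const hm s, fun b => ?_⟩
  let ψ : NonUnitalAlgebra.adjoin F (Set.range a) →ₙₐ[F] C :=
    (Unitization.inrNonUnitalAlgHom F B).comp
      (NonUnitalSubalgebraClass.subtype (NonUnitalAlgebra.adjoin F (Set.range a)))
  have hψ : Function.Injective ψ := by
    intro x y hxy
    exact Subtype.ext (Unitization.inr_injective hxy)
  apply ev_eq_zero (mlp s) (mlp_const hm s) ψ hψ
  rw [mlp_lift]
  refine hid (fun i => ψ (b i)) ?_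
  intro i
  apply adjoin_le h2 JC hcl a' haJ hmin
  have h5 : Set.range a' = (Unitization.inrNonUnitalAlgHom F B) '' (Set.range a) := by
    rw [← Set.range_comp]
    rfl
  rw [h5, ← NonUnitalAlgHom.map_adjoin]
  exact ⟨b i, (b i).2, rfl⟩

/-- Let `F` be a field of characteristic not two, `B` an associative algebra over `F` (not assumed
unital) and `J ⊆ B⁺` the special Jordan algebra generated by `k` elements `a i`. If `J` is PI, then
there are an associative algebra `M`, two elements `x`, `y` of `M` such that the special Jordan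
algebra `P ⊆ M⁺` generated by `x` and `y` is PI, and an injective homomorphism `φ : J → P` of Jordan
algebras. -/
theorem result (F : Type u) [Field F] (h2 : (2 : F) ≠ 0) (B : Type v) [NonUnitalRing B]
    [Module F B] [IsScalarTower F B B] [SMulCommClass F B B] (k : ℕ) (a : Fin k → B)
    (hJ : IsJordanPI F (jordanAdjoin F (Set.range a))) :
    ∃ (M : Type (max u v)) (_ : NonUnitalRing M) (_ : Module F M) (_ : IsScalarTower F M M)
      (_ : SMulCommClass F M M) (x y : M)
      (φ : jordanAdjoin F (Set.range a) →ₗ[F] jordanAdjoin F ({x, y} : Set M)),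
      IsJordanPI F (jordanAdjoin F ({x, y} : Set M)) ∧ Function.Injective φ ∧
      ∀ (b c : jordanAdjoin F (Set.range a))
        (h : circ F (b : B) (c : B) ∈ jordanAdjoin F (Set.range a)),
        ((φ ⟨circ F (b : B) (c : B), h⟩ : jordanAdjoin F ({x, y} : Set M)) : M) =
          circ F (φ b : M) (φ c : M) := by
  set A := NonUnitalAlgebra.adjoin F (Set.range a) with hA
  have haA : ∀ i, a i ∈ A := fun i => NonUnitalAlgebra.subset_adjoin F ⟨i, rfl⟩
  set a' : Fin k → A := fun i => ⟨a i, haA i⟩ with ha'
  obtain ⟨M, _, _, _, _, x, y, ψ, -, hψ, hψJ, hP⟩ :=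
    JordanTwoGenerated.result F h2 A (envelope_isPI F h2 B k a hJ) k a'
  refine ⟨M, inferInstance, inferInstance, inferInstance, inferInstance, x, y, ?_⟩
  -- the Jordan algebra generated in `A` is the one generated in `B`
  have hsub : jordanAdjoin F (Set.range a) ≤
      (jordanAdjoin F (Set.range a')).map
        ((NonUnitalSubalgebraClass.subtype A : A →ₙₐ[F] B) : A →ₗ[F] B) := by
    apply jordanAdjoin_le
    · rintro _ ⟨i, rfl⟩
      exact ⟨a' i, subset_jordanAdjoin _ ⟨i, rfl⟩, rfl⟩
    · rintro _ ⟨b, hb, rfl⟩ _ ⟨c, hc, rfl⟩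
      refine ⟨circ F b c, circ_mem _ b hb c hc, ?_⟩
      rfl
  have hmemA : ∀ b ∈ jordanAdjoin F (Set.range a), b ∈ A := by
    intro b hb
    obtain ⟨b', -, rfl⟩ := hsub hb
    exact b'.2
  have hmemJ : ∀ (b : B) (hb : b ∈ jordanAdjoin F (Set.range a)),
      (⟨b, hmemA b hb⟩ : A) ∈ jordanAdjoin F (Set.range a') := by
    intro b hb
    obtain ⟨b', hb', h⟩ := hsub hb
    have : b' = ⟨b, hmemA b hb⟩ := Subtype.ext h
    rw [← this]
    exact hb'
  refine ⟨{ toFun := fun b => ⟨ψ ⟨b.1, hmemA b.1 b.2⟩, hψJ _ (hmemJ b.1 b.2)⟩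
            map_add' := ?_
            map_smul' := ?_ }, hP, ?_, ?_⟩
  · intro b c
    apply Subtype.ext
    exact map_add ψ (⟨b.1, hmemA b.1 b.2⟩ : A) ⟨c.1, hmemA c.1 c.2⟩
  · intro t b
    apply Subtype.ext
    exact map_smul ψ t (⟨b.1, hmemA b.1 b.2⟩ : A)
  · intro b c hbc
    have h1 := congrArg Subtype.val hbc
    have h3 := hψ h1
    have h4 : (b : B) = (c : B) := congrArg (fun z : A => (z : B)) h3
    exact Subtype.ext h4
  · intro b c h
    have h1 : (⟨circ F (b : B) (c : B), hmemA _ h⟩ : A) =
        circ F (⟨b.1, hmemA b.1 b.2⟩ : A) ⟨c.1, hmemA c.1 c.2⟩ := rfl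
    change ψ ⟨circ F (b : B) (c : B), hmemA _ h⟩ = _
    rw [h1]
    simp only [circ, map_smul, map_add, map_mul]
    rfl

end Pool.Agent.Results.MP_e0d88d_al.SpecialJordanPI
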